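import Pool.Agent.H28.TwoWay2

namespace Pool.Agent.Results.MP_41802b_lc.SingleExp

open Pool.Agent.H28.TwoWay

theorem result (Γ : Type) (n : ℕ) (A : LA Γ (Fin n)) (hA : A.OnceMarking) :
    ∃ m, m ≤ 7 * 8 ^ (n ^ 2 + n) ∧ ∃ B : TDFA Γ (Fin m), ∀ w, B.Accepts w ↔ A.Accepts w := by
  classical
  let P := Set (Fin n) × Set (Fin n × Fin n)
  let i : LinearOrder P := LinearOrder.lift' (Fintype.equivFin P) (Fintype.equivFin P).injective
  let M : TDFA Γ (St P) := @mach Γ P _ i (dT A) (pT A) (AccT A)
  have hM : ∀ w, M.Accepts w ↔ A.Accepts w := fun w => by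
    rw [accepts_iff A w hA]; exact @mach_accepts Γ P _ i (dT A) (pT A) (AccT A) w
  let e := Fintype.equivFin (St P)
  refine ⟨Fintype.card (St P), ?_, ⟨e M.init, fun s => M.fin (e.symm s),
    fun s x => (M.δ (e.symm s) x).map fun p => (e p.1, p.2)⟩, fun w => ?_⟩
  · simp only [P, St, Fintype.card_prod, Fintype.card_set, Fintype.card_fin, card_tag]
    rw [show (8 : ℕ) = 2 ^ 3 by norm_num, ← pow_mul]
    apply le_of_eq; ring
  rw [← hM w]
  constructor
  · rintro ⟨s, h1, h2⟩
    refine ⟨e.symm s, h1, ?_⟩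
    generalize hc : (s, w.length + 2) = c at h2
    have : Relation.ReflTransGen (M.Step w) (M.init, 1) (e.symm c.1, c.2) := by
      clear hc
      induction h2 with
      | refl => simp [Relation.ReflTransGen.refl]
      | @tail a b _ g ih =>
        obtain ⟨g1, d, g2, g3⟩ := g
        refine ih.tail ⟨g1, d, ?_, g3⟩
        simp only [Option.map_eq_some_iff, Prod.mk.injEq] at g2
        obtain ⟨⟨p, q⟩, g4, g5, rfl⟩ := g2
        simp only at g5
        simpa [← g5] using g4
    subst hc
    exact this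
  · rintro ⟨s, h1, h2⟩
    refine ⟨e s, by simpa using h1, ?_⟩
    generalize hc : (s, w.length + 2) = c at h2
    rw [show (e s, w.length + 2) = (e c.1, c.2) by rw [← hc]]
    clear hc
    induction h2 with
    | refl => exact Relation.ReflTransGen.refl
    | @tail a b _ g ih =>
      obtain ⟨g1, d, g2, g3⟩ := g
      refine ih.tail ⟨g1, d, ?_, g3⟩
      simp [g2]

end Pool.Agent.Results.MP_41802b_lc.SingleExp
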